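import Mathlib

set_option autoImplicit false

/-!
# T5 (MP_16912e_nt), block P: the local averages

`F_p` is a function of `(n, k, m, g, R)` modulo `p²`, for every prime `p` (also `p = 2`).  For a
tuple `(n, k, m, g, Z)` with `k R = Z n² - m²`, `m g = Λ n² - Z k²`, `k tr = Z g - Λ m`,
`dis n² = tr² - 4 Z² Λ` one has `n² Z = m² + k R`, `n² Λ = m g + Z k²`, `n² tr = g R - m k Z`, hence
`zz = n² Z`, `ll = n⁴ Λ`, `ss = n⁴ tr` and `ss² - 4 zz² ll = n¹⁰ dis`.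

All the counts below were checked by computer for `p = 2` and `p = 3`.
-/

namespace Pool.Agent.T5P

open Finset

/-- `p` divides the class `x` modulo `p²` -/
def dv (p : ℕ) (x : ZMod (p ^ 2)) : Prop := (p : ZMod (p ^ 2)) * x = 0

/-- `n² Z` -/
def zz (p : ℕ) (k m R : ZMod (p ^ 2)) : ZMod (p ^ 2) := m ^ 2 + k * R

/-- `n⁴ Λ` -/
def ll (p : ℕ) (n k m g R : ZMod (p ^ 2)) : ZMod (p ^ 2) :=
  n ^ 2 * m * g + (m ^ 2 + k * R) * k ^ 2

/-- `n⁴ tr` -/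
def ss (p : ℕ) (n k m g R : ZMod (p ^ 2)) : ZMod (p ^ 2) :=
  n ^ 2 * g * R - m * k * (m ^ 2 + k * R)

/-- the discriminant is not fundamental at `p`, in terms of `n² Z`, `n⁴ Λ`, `n⁴ tr` -/
def nf (p : ℕ) (z l s : ZMod (p ^ 2)) : Prop :=
  if p = 2 then (s = 0 ∧ (z ^ 2 * l = 0 ∨ z ^ 2 * l = 3)) ∨
    (s = 2 ∧ (z ^ 2 * l = 0 ∨ z ^ 2 * l = 1))
  else s ^ 2 = 4 * z ^ 2 * l

/-- the local weight of a class for which `p` does not divide `n` -/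
def bad (p : ℕ) (n k m g R : ZMod (p ^ 2)) : Prop :=
  (dv p (zz p k m R) ∧ dv p (ll p n k m g R)) ∨ nf p (zz p k m R) (ll p n k m g R) (ss p n k m g R)

open Classical in
/-- the local weight of a class -/
noncomputable def Fp (p : ℕ) (n k m g R : ZMod (p ^ 2)) : ℝ :=
  if dv p n then (if ¬ dv p k ∧ ¬ dv p g ∧ dv p m ∧ m ≠ 0 then (p : ℝ) / (p - 1) else 0)
  else if bad p n k m g R then 0
  else if dv p (zz p k m R) then ((p : ℝ) / (p - 1)) ^ 2 else (p : ℝ) / (p - 1)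

/-- not fundamental at `p`, for integers -/
def NF (p : ℕ) (dis : ℤ) : Prop :=
  if p = 2 then dis % 16 = 0 ∨ dis % 16 = 4 else (p : ℤ) ^ 2 ∣ dis

open Classical in
/-- the local weight of a tuple (page of helper95) -/
noncomputable def fT (p : ℕ) (n k m g Z L dis : ℤ) : ℝ :=
  if (p : ℤ) ∣ n then
    (if ¬ (p : ℤ) ∣ k ∧ ¬ (p : ℤ) ∣ g ∧ (p : ℤ) ∣ m ∧ ¬ (p : ℤ) ^ 2 ∣ m then (p : ℝ) / (p - 1) else 0)
  else if ((p : ℤ) ∣ Z ∧ (p : ℤ) ∣ L) ∨ NF p dis then 0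
  else if (p : ℤ) ∣ Z then ((p : ℝ) / (p - 1)) ^ 2 else (p : ℝ) / (p - 1)

/-! ## Rows -/

/-- **PD** (short).  Basic facts on `Z / p²`, `p` prime.
(1) `dv p x ↔ ∃ y, x = p y`: by `x = (x.val : ZMod (p^2))` and `p * x.val ≡ 0 mod p²` iff
`p ∣ x.val`.  (2) `dv` is an ideal: clear.  (3) `dv p (x y) ↔ dv p x ∨ dv p y` (values and
Euclid).  (4) `IsUnit x ↔ ¬ dv p x` (`ZMod.isUnit_iff_coprime` or
`ZMod.unitOfCoprime`; `Nat.Coprime (x.val) (p^2) ↔ ¬ p ∣ x.val`).  (5) `p * p = 0`, so a product of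
two elements divisible by `p` is zero.  (6) there are `p` classes divisible by `p` (the image of
`y ↦ p y`, `y < p`) and `p² - p` units. -/
def PD_stmt : Prop := ∀ (p : ℕ) [Fact p.Prime],
  (∀ x : ZMod (p ^ 2), dv p x ↔ ∃ y, x = p * y) ∧
  (∀ x y : ZMod (p ^ 2), dv p x → dv p y → dv p (x + y)) ∧
  (∀ x y : ZMod (p ^ 2), dv p (x * y) ↔ dv p x ∨ dv p y) ∧
  (∀ x : ZMod (p ^ 2), IsUnit x ↔ ¬ dv p x) ∧
  (∀ x y : ZMod (p ^ 2), dv p x → dv p y → x * y = 0) ∧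
  Nat.card {x : ZMod (p ^ 2) // dv p x} = p ∧
  Nat.card {x : ZMod (p ^ 2) // ¬ dv p x} = p ^ 2 - p

/-- **PKR** (medium, algebra).  In a commutative ring let `n`, `Z`, `2` be units and let
`n² Z = m² + k R`, `n² b² = m g + Z k²`, `2 n² Z b = g R - m k Z`.  Then
`Z g = 2 Z k b + b² m` and `R b² = 2 Z b m + Z² k`, and for `a` with `n a = m + Z k / b`
(`b` a unit) one has `a² = Z`.
Proof.  Put `δ = Z g - 2 Z k b - b² m`, `ρ = R b² - 2 Z b m - Z² k`.  Multiplying the first equation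
by `b²`, the second by `Z`: `m² b² + k R b² = Z m g + Z² k²`, that is `k ρ = m δ`.  The second and
third: `2 Z (m g + Z k²) = b (g R - m k Z)` and `2 b (m² + k R) = g R - m k Z` (from `n² Z`), the
latter is `R (g - 2 b k) = 2 b m² + m k Z`; multiplied by `Z`, with `Z g = δ + 2 Z k b + b² m`:
`R δ + R b² m = 2 Z b m² + Z² k m`, that is `m ρ = - R δ`.  Hence
`(m² + k R) δ = m (k ρ) - k (m ρ) = 0` and `n² Z` is a unit: `δ = 0`; then
`k ρ = 0`, `m ρ = 0`, `(m² + k R) ρ = 0`, `ρ = 0`.  Finally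
`b² n² a² = (m b + Z k)² = m² b² + 2 m b Z k + Z² k²` and `b² n² Z = b² m² + k b² R
= b² m² + 2 Z b m k + Z² k²`. -/
def PKR_stmt : Prop := ∀ (A : Type) [CommRing A] (n k m g R Z b : A), IsUnit n → IsUnit Z →
  IsUnit b → n ^ 2 * Z = m ^ 2 + k * R → n ^ 2 * b ^ 2 = m * g + Z * k ^ 2 →
  2 * n ^ 2 * Z * b = g * R - m * k * Z →
  Z * g = 2 * Z * k * b + b ^ 2 * m ∧ R * b ^ 2 = 2 * Z * b * m + Z ^ 2 * k ∧
    ∀ a : A, n * b * a = m * b + Z * k → a ^ 2 = Z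

/-- **PK** (medium).  The key count, odd `p`: for a unit `n` and every `k`,
`#{(m, g, R) : z, l units, s² = 4 z² l} = (p² - p)²`.
Proof.  The map from pairs of units `(a, b)` to `(m, g, R) = (a n - a² k / b, b k + b² n / a,
2 a³ n / b - a⁴ k / b²)` is a bijection onto this set.  It maps into it: `m² + k R = a² n²`,
`n² m g + (m² + k R) k² = n⁴ b²` (that is `m g + a² k² = b² n²`), `g R - m k a² = 2 a² b n²`, so
`z = n² a²`, `l = n⁴ b²`, `s = n² (g R - m k a²) = 2 n⁴ a² b`, and `s² = 4 z² l`.  Injective: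
`s = 2 z n² b` gives `b`, then `n a = m + a² k / b = m + (z / n²) k / b` gives `a`.  Surjective:
given `(m, g, R)` put `Z = z / n²`, `b = s / (2 n² z)`; then `l = s² / (4 z²) = n⁴ b²`, `b` is a
unit (`b² = l / n⁴`), `n² Z = m² + k R`, `n² b² = m g + Z k²` (divide `l = n² m g + z k²` by `n²`),
`g R - m k Z = s / n² = 2 n² Z b`; with `a = (m + Z k / b) / n` PKR gives `a² = Z` (so `a` is a
unit), `m = a n - a² k / b` by definition, `g = 2 k b + b² m / Z = b k + b² n / a` and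
`R = 2 Z m / b + Z² k / b² = 2 a³ n / b - a⁴ k / b²`. -/
def PK_stmt : Prop := ∀ (p : ℕ) [Fact p.Prime], p ≠ 2 → ∀ n k : ZMod (p ^ 2), ¬ dv p n →
  Nat.card {v : ZMod (p ^ 2) × ZMod (p ^ 2) × ZMod (p ^ 2) //
    ¬ dv p (zz p k v.1 v.2.2) ∧ ¬ dv p (ll p n k v.1 v.2.1 v.2.2) ∧
      nf p (zz p k v.1 v.2.2) (ll p n k v.1 v.2.1 v.2.2) (ss p n k v.1 v.2.1 v.2.2)} =
    (p ^ 2 - p) ^ 2

/-- **PB** (short-medium).  Odd `p`, `n` a unit: `#{(m, g, R) : z unit, p ∣ l, s² = 4 z² l}` is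
`(p² - p) p²` if `p ∣ k` and `0` otherwise.
Proof.  `p ∣ l` and `s² = 4 z² l` give `p ∣ s`, `s² = 0`, so `l = 0` (`4 z²` is a unit).  If `k` is a
unit: `n² m g = - z k²` is a unit, so `m` is a unit, and `m s = n² m g R - m² k z = - z k² R - m² k z
= - z k (k R + m²) = - z² k` is a unit, a contradiction.  If `p ∣ k`: `z = m² + k R` unit gives `m`
unit, `k² = 0`, so `l = n² m g` and `g = 0`; conversely for `m` a unit, `g = 0`, any `R`: `z` is a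
unit, `l = 0` and `s = - m k z` has `s² = 0`. -/
def PB_stmt : Prop := ∀ (p : ℕ) [Fact p.Prime], p ≠ 2 → ∀ n k : ZMod (p ^ 2), ¬ dv p n →
  (dv p k → Nat.card {v : ZMod (p ^ 2) × ZMod (p ^ 2) × ZMod (p ^ 2) //
    ¬ dv p (zz p k v.1 v.2.2) ∧ dv p (ll p n k v.1 v.2.1 v.2.2) ∧
      nf p (zz p k v.1 v.2.2) (ll p n k v.1 v.2.1 v.2.2) (ss p n k v.1 v.2.1 v.2.2)} =
    (p ^ 2 - p) * p ^ 2) ∧
  (¬ dv p k → Nat.card {v : ZMod (p ^ 2) × ZMod (p ^ 2) × ZMod (p ^ 2) //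
    ¬ dv p (zz p k v.1 v.2.2) ∧ dv p (ll p n k v.1 v.2.1 v.2.2) ∧
      nf p (zz p k v.1 v.2.2) (ll p n k v.1 v.2.1 v.2.2) (ss p n k v.1 v.2.1 v.2.2)} = 0)

/-- **PZ** (medium).  Odd `p`, `n` a unit, counts of `(m, g, R)`:
(1) `z` unit: `p⁴ (p² - p)` for `k` a unit (given `m, g` the units `z = m² + k R` correspond to `R`),
and `(p² - p) p⁴` for `p ∣ k` (`z` unit iff `m` unit): the same number in both cases.
(2) `p ∣ z`, `l` unit: `(p² - p)² p` for `k` a unit: `l = n² m g + z k²` is a unit iff `m`, `g` are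
units, and for given `m` the `R` with `p ∣ m² + k R` are `p` in number; none for `p ∣ k`
(then `p ∣ m`, `p ∣ l`).
(3) if `p ∣ z` and `l` is a unit then not `nf`: `s² = 4 z² l = 0` would give `p ∣ s`, but
`s = n² g R - m k z`, `p ∣ z`, so `p ∣ g R`, `g` unit, `p ∣ R`, `p ∣ m² + k R` gives `p ∣ m`, against
`l` unit. -/
def PZ_stmt : Prop := ∀ (p : ℕ) [Fact p.Prime], p ≠ 2 → ∀ n k : ZMod (p ^ 2), ¬ dv p n →
  (Nat.card {v : ZMod (p ^ 2) × ZMod (p ^ 2) × ZMod (p ^ 2) // ¬ dv p (zz p k v.1 v.2.2)} =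
    p ^ 4 * (p ^ 2 - p)) ∧
  (¬ dv p k → Nat.card {v : ZMod (p ^ 2) × ZMod (p ^ 2) × ZMod (p ^ 2) //
    dv p (zz p k v.1 v.2.2) ∧ ¬ dv p (ll p n k v.1 v.2.1 v.2.2)} = (p ^ 2 - p) ^ 2 * p) ∧
  (dv p k → ∀ m g R, dv p (zz p k m R) → dv p (ll p n k m g R)) ∧
  (∀ m g R, dv p (zz p k m R) → ¬ dv p (ll p n k m g R) →
    ¬ nf p (zz p k m R) (ll p n k m g R) (ss p n k m g R))

/-- **PO** (medium, bookkeeping).  Odd `p`: the sum of `F_p`.  For a unit `n`: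
the sum over `(m, g, R)` is `(p/(p-1)) (#(z unit) - #PK - #PB) + (p/(p-1))² #(p ∣ z, l unit)`;
the total over `n`, `k` is with `u = p² - p`
`(p/(p-1)) (u p² p⁴ u - u p² u² - u p u p²) + (p/(p-1))² u u u² p`; for `p ∣ n`:
`(p/(p-1)) p u u (p - 1) p²`.  With `u = p (p - 1)` the sum is
`p⁷ (p-1) (p²-1) + p⁷ (p-1)² + p⁶ (p-1)² = p⁶ (p² - 1)²`. -/
def PO_stmt : Prop := ∀ (p : ℕ) [Fact p.Prime], p ≠ 2 →
  ∑ n : ZMod (p ^ 2), ∑ k : ZMod (p ^ 2), ∑ m : ZMod (p ^ 2), ∑ g : ZMod (p ^ 2),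
    ∑ R : ZMod (p ^ 2), Fp p n k m g R = (p : ℝ) ^ 10 * (1 - 1 / (p : ℝ) ^ 2) ^ 2

/-- **P2** (short-medium).  `p = 2`: the sum is `576 = 2¹⁰ (3/4)²`.  Count: `dv 2 x` iff `x = 0` or
`x = 2` in `ZMod (2^2)`; the number of classes of weight `2` is `224` (`192` with `n` odd, `32` with
`n` even), of weight `4` is `32`.  Write the sum as `2 * card + 4 * card'` (all values are
`0, 2, 4`) and compute the two cardinalities by `decide` (for instance `decide +kernel` for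
Boolean functions on `Fin 4`, `1024` classes), or first reduce to `n = 1`. -/
def P2_stmt : Prop :=
  ∑ n : ZMod (2 ^ 2), ∑ k : ZMod (2 ^ 2), ∑ m : ZMod (2 ^ 2), ∑ g : ZMod (2 ^ 2),
    ∑ R : ZMod (2 ^ 2), Fp 2 n k m g R = 576

/-- **PL** (medium).  The weight of a tuple is the weight of its class.
Proof.  `k ≠ 0` and the relations give `n² Z = m² + k R`, `n² Λ = m g + Z k²`,
`n² tr = g R - m k Z` (multiply by `k`), so in `ZMod (p^2)`: `zz = n² Z`, `ll = n⁴ Λ`,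
`ss = n⁴ tr`, and `ss² - 4 zz² ll = n⁸ (tr² - 4 Z² Λ) = n¹⁰ dis`.  For an integer `x`:
`dv p (x : ZMod (p^2)) ↔ p ∣ x` and `(x : ZMod (p^2)) = 0 ↔ p² ∣ x`
(`ZMod.intCast_zmod_eq_zero_iff_dvd`, `ZMod.intCast_zmod_cast`).  Case `p ∣ n`: clear.  Case
`p ∤ n`: `p ∣ zz ↔ p ∣ Z`, `p ∣ ll ↔ p ∣ Λ`; odd `p`: `nf ↔ p² ∣ n¹⁰ dis ↔ p² ∣ dis`.  `p = 2`: `n` is
odd, `n² ≡ 1 mod 8`, `ss ≡ tr`, `zz ≡ Z`, `ll ≡ Λ` modulo `4`.  If `tr` is odd then `dis` is odd and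
`ss` is odd: both sides false.  If `tr = 2 s'`: `4 ∣ dis n²`, `dis = 4 d'`, `d' n² = s'² - Z² Λ`, so
`d' ≡ s'² - Z² Λ mod 4`, and `dis mod 16 ∈ {0, 4}` iff `d' mod 4 ∈ {0, 1}`; `s'² ≡ 0` or `1` as
`tr ≡ 0` or `2` modulo `4`. -/
def PL_stmt : Prop := ∀ (p : ℕ), p.Prime → ∀ n k m g Z L R tr dis : ℤ, k ≠ 0 →
  k * R = Z * n ^ 2 - m ^ 2 → m * g = L * n ^ 2 - Z * k ^ 2 → k * tr = Z * g - L * m →
  dis * n ^ 2 = tr ^ 2 - 4 * Z ^ 2 * L →
  fT p n k m g Z L dis =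
    Fp p (n : ZMod (p ^ 2)) (k : ZMod (p ^ 2)) (m : ZMod (p ^ 2)) (g : ZMod (p ^ 2))
      (R : ZMod (p ^ 2))

/-- the modulus of a finite set of primes -/
def ee (S : Finset ℕ) : ℕ := ∏ p ∈ S, p ^ 2

/-- the product of the local weights of a class, given by integers -/
noncomputable def FF (S : Finset ℕ) (n k m g R : ℤ) : ℝ :=
  ∏ p ∈ S, Fp p (n : ZMod (p ^ 2)) (k : ZMod (p ^ 2)) (m : ZMod (p ^ 2)) (g : ZMod (p ^ 2))
    (R : ZMod (p ^ 2))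

/-- **PCR** (medium).  Chinese remainder theorem for one variable: for coprime `a, b ≥ 1` and
`G : ZMod a → ZMod b → ℝ`, `∑ r < a b, G r r = ∑ x, ∑ y, G x y`.
Proof.  `ZMod.chineseRemainder` is a ring isomorphism `ZMod (a b) ≃ ZMod a × ZMod b` with
`r ↦ (r, r)` for natural numbers, and `∑ r ∈ range N, f (r : ZMod N) = ∑ x : ZMod N, f x`
(`N ≥ 1`; bijection `r ↦ (r : ZMod N)`, inverse `ZMod.val`). -/
def PCR_stmt : Prop := ∀ (a b : ℕ) [NeZero a] [NeZero b], Nat.Coprime a b →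
  ∀ G : ZMod a → ZMod b → ℝ,
    ∑ r ∈ range (a * b), G (r : ZMod a) (r : ZMod b) = ∑ x : ZMod a, ∑ y : ZMod b, G x y

/-- **PC** (medium).  The sum over all the classes modulo `e = ∏ p²`:
`∑ FF = e⁵ ∏ (1 - p⁻²)²`.
Proof.  Induction on `S`.  `S = ∅`: `1 = 1`.  `insert p S`: `ee (insert p S) = p² ee S`, coprime
factors; `FF (insert p S) r = Fp p (r mod p²) · FF S r`, and `FF S r` depends on `r` modulo `ee S`
only (each factor factors through `ZMod (ee S)`, `q² ∣ ee S`; write `FF S r = φ (r1 : ZMod (ee S)) ..`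
with `φ x = ∏ q ∈ S, Fp q (x1.val) ..` or with `ZMod.castHom`).  PCR applied five times gives
`(∑ over (ZMod p²)⁵ of Fp) (∑ over (range (ee S))⁵ of FF S)`; first factor: PO, P2
(`576 = 2¹⁰ (1 - 1/4)²`). -/
def PC_stmt : Prop := ∀ S : Finset ℕ, (∀ p ∈ S, p.Prime) →
  ∑ n ∈ range (ee S), ∑ k ∈ range (ee S), ∑ m ∈ range (ee S), ∑ g ∈ range (ee S),
    ∑ R ∈ range (ee S), FF S n k m g R =
  (ee S : ℝ) ^ 5 * ∏ p ∈ S, (1 - 1 / (p : ℝ) ^ 2) ^ 2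

/-- **PIN** (short-medium).  Properties of the weight: `0 ≤ FF`, `FF S ≤ ∏ (p/(p-1))²`; `FF S`
depends only on the classes of `n, k, m, g` modulo `ee S` and, if `e₁` is a divisor of `ee S` such
that every `p ∈ S` with `p ∤ n` has `p² ∣ e₁`, on the class of `R` modulo `e₁` (for `p ∣ n` the weight
`Fp` does not depend on `R`). -/
def PIN_stmt : Prop := ∀ S : Finset ℕ, (∀ p ∈ S, p.Prime) →
  (∀ n k m g R : ℤ, 0 ≤ FF S n k m g R ∧ FF S n k m g R ≤ ∏ p ∈ S, ((p : ℝ) / (p - 1)) ^ 2) ∧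
  (∀ (n k m g R n' k' m' g' R' : ℤ) (e₁ : ℕ), (ee S : ℤ) ∣ n - n' → (ee S : ℤ) ∣ k - k' →
    (ee S : ℤ) ∣ m - m' → (ee S : ℤ) ∣ g - g' → (∀ p ∈ S, ¬ (p : ℤ) ∣ n → (p : ℤ) ^ 2 ∣ e₁) →
    (e₁ : ℤ) ∣ R - R' → FF S n k m g R = FF S n' k' m' g' R')

/-! ## Composition -/

/-- the block P: everything the block TAS uses -/
def P_stmt : Prop := PL_stmt ∧ PC_stmt ∧ PIN_stmt

end Pool.Agent.T5P
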