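import Mathlib

set_option autoImplicit false

/-!
# T5 (MP_16912e_nt), block V: the volume of the central region

Scaled variables, in the order `(Z, n, k, m, g)`, all real; `La = Λ`, `Wd = -dis` (scaled by `N`),
`S1 = sin φ`, `S2 = sin ψ`.  The measure is `dZ dn dk dm dg / (n³ k)`.
-/

namespace Pool.Agent.T5V

open MeasureTheory Set
open scoped ENNReal

/-- `Λ` -/
noncomputable def La (Z n k m g : ℝ) : ℝ := (m * g + Z * k ^ 2) / n ^ 2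

/-- `- dis` -/
noncomputable def Wd (Z n k m g : ℝ) : ℝ :=
  (4 * Z ^ 2 * La Z n k m g * k ^ 2 - (Z * g - La Z n k m g * m) ^ 2) / (n * k) ^ 2

/-- `sin φ` -/
noncomputable def S1 (Z n k m g : ℝ) : ℝ :=
  n * √(Wd Z n k m g) / (2 * Z * √(La Z n k m g))

/-- `sin ψ` -/
noncomputable def S2 (Z n k m g : ℝ) : ℝ :=
  k * √(Wd Z n k m g) / (2 * √Z * La Z n k m g)

/-- `sin² φ` in terms of `U = sin ψ / sin φ`, `v = sin (φ - ψ) / sin φ` -/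
noncomputable def Sg (U v : ℝ) : ℝ := 1 - ((1 - U ^ 2 - v ^ 2) / (2 * U * v)) ^ 2

/-! ## The change of variables -/

/-- **VAF** (short).  `∫ H(g) dg = |a| ∫ H(a l + b) dl`.  Mathlib: `Measure.map` of `volume` under
`x ↦ a * x` and `x ↦ x + b` (`Real.map_volume_mul_left`, `lintegral_add_right_eq_self`), or
`MeasureTheory.Measure.addHaar_...`; second part: `a > 0`, on `Ioi 0`. -/
def VAF_stmt : Prop :=
  (∀ (a b : ℝ), a ≠ 0 → ∀ H : ℝ → ℝ≥0∞, Measurable H →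
    ∫⁻ g, H g = ENNReal.ofReal |a| * ∫⁻ l, H (a * l + b)) ∧
  (∀ a : ℝ, 0 < a → ∀ H : ℝ → ℝ≥0∞, Measurable H →
    ∫⁻ g in Ioi (0 : ℝ), H g = ENNReal.ofReal a * ∫⁻ l in Ioi (0 : ℝ), H (a * l))

/-- **VDW** (short-medium).  For `c > 0`: `∫_{n>0} Φ(c/n²) dn/n = ∫_{w>0} Φ(w) dw/(2w)`.
`MeasureTheory.lintegral_image_eq_lintegral_abs_deriv_mul` for `f n = c / n²` on `Ioi 0`:
injective, image `Ioi 0`, `|f' n| = 2 c / n³`, applied to `w ↦ Φ w * ofReal (1/(2w))`: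
`2c/n³ · 1/(2c/n²) = 1/n`. -/
def VDW_stmt : Prop := ∀ c : ℝ, 0 < c → ∀ Φ : ℝ → ℝ≥0∞, Measurable Φ →
  ∫⁻ n in Ioi (0 : ℝ), Φ (c / n ^ 2) * ENNReal.ofReal (1 / n) =
    ∫⁻ w in Ioi (0 : ℝ), Φ w * ENNReal.ofReal (1 / (2 * w))

/-- **VGM** (medium, geometry).  The map `f(φ,ψ) = (sin ψ / sin φ, sin(φ - ψ)/sin φ)` on
`{(φ,ψ) ∈ (0,π)² : φ ≠ ψ}` is injective with image `{(U,v) : U > 0, v ≠ 0, Sg U v > 0}`, and there
`√(Sg U v) = sin φ`, `U √(Sg U v) = sin ψ`.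
Proof.  `v sin φ = sin φ cos ψ - cos φ sin ψ`, so `v + U cos φ = cos ψ`, `U sin φ = sin ψ`.  Squares:
`v² + U² + 2 v U cos φ = 1`, so `cos φ = (1 - U² - v²)/(2 U v)` (`v ≠ 0` as `φ ≠ ψ`,
`|φ - ψ| < π`), `Sg = 1 - cos² φ = sin² φ > 0`.  Injective: `cos φ` is determined by `(U,v)`, so `φ`
(`Real.injOn_cos` on `[0,π]`), and `cos ψ = v + U cos φ`.  Surjective: for `U > 0`, `v ≠ 0`,
`Sg > 0` the number `c = (1-U²-v²)/(2Uv)` has `|c| < 1`, `φ = arccos c ∈ (0,π)`; with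
`x = v + U c`, `x² + U² (1 - c²) = v² + U² + 2 v U c = 1` and `U sin φ > 0`, so `ψ = arccos x ∈ (0,π)`
has `sin ψ = √(1-x²) = U sin φ`, `cos ψ = v + U cos φ`; then `sin(φ-ψ) = sin φ cos ψ - cos φ sin ψ
= v sin φ`, and `φ ≠ ψ` since `v ≠ 0`. -/
def VGM_stmt : Prop :=
  Set.InjOn (fun x : ℝ × ℝ => (Real.sin x.2 / Real.sin x.1, Real.sin (x.1 - x.2) / Real.sin x.1))
    ((Ioo 0 Real.pi ×ˢ Ioo 0 Real.pi) ∩ {x | x.1 ≠ x.2}) ∧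
  (fun x : ℝ × ℝ => (Real.sin x.2 / Real.sin x.1, Real.sin (x.1 - x.2) / Real.sin x.1)) ''
    ((Ioo 0 Real.pi ×ˢ Ioo 0 Real.pi) ∩ {x | x.1 ≠ x.2}) =
      {y : ℝ × ℝ | 0 < y.1 ∧ y.2 ≠ 0 ∧ 0 < Sg y.1 y.2} ∧
  ∀ φ ∈ Ioo 0 Real.pi, ∀ ψ ∈ Ioo 0 Real.pi, φ ≠ ψ →
    √(Sg (Real.sin ψ / Real.sin φ) (Real.sin (φ - ψ) / Real.sin φ)) = Real.sin φ ∧
    Real.sin ψ / Real.sin φ * √(Sg (Real.sin ψ / Real.sin φ) (Real.sin (φ - ψ) / Real.sin φ)) =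
      Real.sin ψ

/-- **VE2** (medium).  The two dimensional change of variables:
`∫_{U>0} ∫_v 1[Sg > 0] Ψ(√Sg, U √Sg) dU dv/(U |v|) = ∫_{(0,π)²} Ψ(sin φ, sin ψ) dφ dψ`.
Proof from VGM: Tonelli (`lintegral_prod`, `Measure.volume_eq_prod`) on both sides; the lines
`v = 0` and `φ = ψ` are null.  `MeasureTheory.lintegral_image_eq_lintegral_abs_det_fderiv_mul` with
the `f` of VGM; the derivative at `(φ,ψ)` has the matrix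
`[[-U cot φ, cos ψ / sin φ], [sin ψ / sin² φ, - cos(φ-ψ)/sin φ]]` (rows `U`, `v`;
`∂v/∂φ = (cos(φ-ψ) sin φ - sin(φ-ψ) cos φ)/sin² φ = sin ψ / sin² φ`), determinant
`(sin ψ cos φ cos(φ-ψ) - cos ψ sin ψ)/ sin³ φ`, and `cos φ cos(φ-ψ) - cos ψ = - sin φ sin(φ-ψ)`
(as `cos ψ = cos(φ - (φ-ψ))`): it is `- sin ψ sin(φ-ψ)/sin² φ = - U v`.  So
`|det| · 1/(U |v|) = 1`. -/
def VE2_stmt : Prop := ∀ Ψ : ℝ → ℝ → ℝ≥0∞, Measurable (fun x : ℝ × ℝ => Ψ x.1 x.2) →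
  ∫⁻ U in Ioi (0 : ℝ), ∫⁻ v, (if 0 < Sg U v then Ψ (√(Sg U v)) (U * √(Sg U v)) else 0) *
      ENNReal.ofReal (1 / (U * |v|)) =
    ∫⁻ φ in Ioo 0 Real.pi, ∫⁻ ψ in Ioo 0 Real.pi, Ψ (Real.sin φ) (Real.sin ψ)

/-- **VID** (short-medium, algebra).  For `Z, n, l, U > 0`, `v ≠ 0`, `k = n √(l/Z) U`,
`m = n √Z v`, `g = (l n² - Z k²)/m`: `La = l`, `Wd = (4 Z² l / n²) Sg U v`, and if `Sg U v > 0`:
`S1 = √Sg`, `S2 = U √Sg`.
Proof.  `m g + Z k² = l n²`.  `Z k² = n² l U²`, `m² = n² Z v²`, so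
`Z g - l m = Z n² l (1 - U²)/(n √Z v) - l n √Z v = n √Z l (1 - U² - v²)/v`, square
`n² Z l² (1-U²-v²)²/v²`; `4 Z² l k² = 4 Z l² n² U²`; `(n k)² = n⁴ l U²/Z`.  So
`Wd = (Z² l/n²)(4 - (1-U²-v²)²/(U v)²)`.  `S1 = n √Wd/(2 Z √l)` with
`√Wd = 2 Z √l √Sg / n`; `S2 = k √Wd/(2 √Z l) = n √(l/Z) U · 2 Z √l √Sg/(2 n √Z l) = U √Sg`. -/
def VID_stmt : Prop := ∀ Z n l U v : ℝ, 0 < Z → 0 < n → 0 < l → 0 < U → v ≠ 0 →
  La Z n (n * √(l / Z) * U) (n * √Z * v)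
      ((l * n ^ 2 - Z * (n * √(l / Z) * U) ^ 2) / (n * √Z * v)) = l ∧
  Wd Z n (n * √(l / Z) * U) (n * √Z * v)
      ((l * n ^ 2 - Z * (n * √(l / Z) * U) ^ 2) / (n * √Z * v)) =
    (4 * Z ^ 2 * l * Sg U v) / n ^ 2 ∧
  (0 < Sg U v →
    S1 Z n (n * √(l / Z) * U) (n * √Z * v)
      ((l * n ^ 2 - Z * (n * √(l / Z) * U) ^ 2) / (n * √Z * v)) = √(Sg U v) ∧
    S2 Z n (n * √(l / Z) * U) (n * √Z * v)
      ((l * n ^ 2 - Z * (n * √(l / Z) * U) ^ 2) / (n * √Z * v)) = U * √(Sg U v))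

/-- **VCV** (medium-long, assembly of VAF, VDW, VE2, VID with Tonelli).  The change of variables
`∫ G(Z, Λ, -dis, sin φ, sin ψ) dZ dn dk dm dg/(n³ k) = ∫ G(Z, l, w, sin φ, sin ψ) dZ dl dw dφ dψ/(2w)`.
Proof.  Fix `Z > 0`.  For fixed `n, k > 0`, `m ≠ 0` substitute `g = (n²/m) l - Z k²/m` (VAF 1):
the inner integral is `(n²/|m|) ∫_l H`; only `l > 0` counts.  So the left side is
`∫_n ∫_k ∫_m ∫_{l>0} 1[Wd>0] G / (n k |m|)`; exchange (`lintegral_lintegral_swap`) to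
`∫_{l>0} ∫_n ∫_k ∫_m`; substitute `m = n √Z v`, `k = n √(l/Z) U` (VAF): `dk dm/(k |m|) =
dU dv/(U |v|)`; by VID the integrand is `1[Sg>0] G(Z, l, c/n², √Sg, U √Sg)`, `c = 4 Z² l Sg`, times
`1/(n U |v|)`; exchange `n` with `(U,v)`, VDW: `∫_w dw/(2w)`; exchange again and VE2 with
`Ψ = G(Z,l,w,·,·)`.  Measurability of all the integrands: they are compositions of measurable
functions (`fun_prop`, `Measurable.ite`). -/
def VCV_stmt : Prop := ∀ G : ℝ → ℝ → ℝ → ℝ → ℝ → ℝ≥0∞,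
  Measurable (fun x : ℝ × ℝ × ℝ × ℝ × ℝ => G x.1 x.2.1 x.2.2.1 x.2.2.2.1 x.2.2.2.2) →
  ∫⁻ Z in Ioi (0 : ℝ), ∫⁻ n in Ioi (0 : ℝ), ∫⁻ k in Ioi (0 : ℝ), ∫⁻ m, ∫⁻ g,
      (if 0 < La Z n k m g ∧ 0 < Wd Z n k m g then
        G Z (La Z n k m g) (Wd Z n k m g) (S1 Z n k m g) (S2 Z n k m g) else 0) *
        ENNReal.ofReal (1 / (n ^ 3 * k)) =
    ∫⁻ Z in Ioi (0 : ℝ), ∫⁻ l in Ioi (0 : ℝ), ∫⁻ w in Ioi (0 : ℝ),
      ∫⁻ φ in Ioo 0 Real.pi, ∫⁻ ψ in Ioo 0 Real.pi,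
        G Z l w (Real.sin φ) (Real.sin ψ) * ENNReal.ofReal (1 / (2 * w))

/-! ## The central region -/

/-- the central region, `(Z, n, k, m, g)` -/
def CenR (κ : ℝ) : Set (ℝ × ℝ × ℝ × ℝ × ℝ) :=
  {x | 1 / 2 < x.1 ∧ x.1 ≤ 1 ∧ 0 < x.2.1 ∧ 0 < x.2.2.1 ∧
    κ ≤ La x.1 x.2.1 x.2.2.1 x.2.2.2.1 x.2.2.2.2 ∧
    La x.1 x.2.1 x.2.2.1 x.2.2.2.1 x.2.2.2.2 ≤ √(Wd x.1 x.2.1 x.2.2.1 x.2.2.2.1 x.2.2.2.2) ∧
    1 / 2 < Wd x.1 x.2.1 x.2.2.1 x.2.2.2.1 x.2.2.2.2 ∧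
    Wd x.1 x.2.1 x.2.2.1 x.2.2.2.1 x.2.2.2.2 ≤ 1 ∧
    κ ≤ S1 x.1 x.2.1 x.2.2.1 x.2.2.2.1 x.2.2.2.2 ∧
    κ ≤ S2 x.1 x.2.1 x.2.2.1 x.2.2.2.1 x.2.2.2.2}

/-- the volume of the central region -/
noncomputable def Iv (κ : ℝ) : ℝ :=
  1 / 4 * (Real.pi - 2 * Real.arcsin κ) ^ 2 * (2 - √2 - κ * Real.log 2)

/-- **VBD** (short-medium).  Bounds on the central region: `κ² ≤ n ≤ 4`, `κ² ≤ k ≤ 4`,
`|m| ≤ 8/κ`, `|g| ≤ 16`.
Proof.  With `b = (Z g - Λ m)/k`, `c = (Z g + Λ m)/n`: `Λ n² = m g + Z k²` and the definition of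
`Wd` give `n² Wd = 4 Z² Λ - b²` and `k² Wd = 4 Z Λ² - c²` (`(Zg+Λm)² = (Zg-Λm)² + 4 Z Λ m g`).  So
`n² ≤ 8`, `k² ≤ 8`, `|b|, |c| ≤ 2`, `|Z g - Λ m| ≤ 2 k`, `|Z g + Λ m| ≤ 2 n`,
`|Λ m|, |Z g| ≤ n + k ≤ 2 √8 < 8`.  `S1 ≥ κ`: `n = 2 Z √Λ S1/√Wd ≥ √κ κ ≥ κ²`;
`k = 2 √Z Λ S2/√Wd ≥ 2 √(1/2) κ² ≥ κ²`. -/
def VBD_stmt : Prop := ∀ κ : ℝ, 0 < κ → κ < 1 / 2 → ∀ x ∈ CenR κ,
  κ ^ 2 ≤ x.2.1 ∧ x.2.1 ≤ 4 ∧ κ ^ 2 ≤ x.2.2.1 ∧ x.2.2.1 ≤ 4 ∧ |x.2.2.2.1| ≤ 8 / κ ∧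
    |x.2.2.2.2| ≤ 16

/-- **VVL** (medium).  `∫_{CenR κ} dx/(n³ k) = Iv κ`; also the region is measurable.
Proof.  The region is measurable (inequalities between measurable functions).  The set integral is
an iterated integral (`Measure.volume_eq_prod`, `lintegral_prod`, indicator), equal to the left
side of VCV for the indicator `G` of `1/2 < Z ≤ 1`, `κ ≤ l ≤ √w`, `1/2 < w ≤ 1`, `κ ≤ s₁`, `κ ≤ s₂`
(on the region `Wd > 0`, `La > 0`).  Right side: the `(φ,ψ)`-integral is the square of the measure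
`π - 2 arcsin κ` of `{φ ∈ (0,π) : sin φ ≥ κ} = [arcsin κ, π - arcsin κ]`; then
`∫_{1/2}^1 dZ = 1/2`, `∫_l = √w - κ` (`≥ 0` as `κ < 1/2 < √w`),
`∫_{1/2}^1 (√w - κ)/(2w) dw = (1/2)(2 - 2/√2 - κ log 2) = (1/2)(2 - √2 - κ log 2)`. -/
def VVL_stmt : Prop := ∀ κ : ℝ, 0 < κ → κ < 1 / 2 → MeasurableSet (CenR κ) ∧
  ∫⁻ x in CenR κ, ENNReal.ofReal (1 / (x.2.1 ^ 3 * x.2.2.1)) = ENNReal.ofReal (Iv κ)

/-- **VFR** (medium).  The frontier of the central region is a null set.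
Proof.  Let `K` be the compact box `1/2 ≤ Z ≤ 1`, `κ² ≤ n, k ≤ 4`, `|m| ≤ 8/κ`, `|g| ≤ 16`; on it `La`
and `Wd` are continuous; the part `K' = K ∩ {La ≥ κ, Wd ≥ 1/2}` is closed, contains `CenR κ` (VBD)
and so its closure; on `K'` all of `La, Wd, S1, S2` are continuous (also on the open
neighbourhood `n, k, Z, La, Wd > 0` of `K'`).  A point of `K'` where all the inequalities of `CenR`
are strict is an interior point of `CenR κ`; a point of `K'` where one of the inequalities fails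
strictly is exterior.  So the frontier is contained in the part of `K'` where
`Z = 1/2` or `Z = 1` or `La = κ` or `La² = Wd` or `Wd = 1/2` or `Wd = 1` or `S1 = κ` or `S2 = κ`.
Each of these eight sets is null: by VCV applied to the indicator `G` of the corresponding
condition on `(Z, l, w, s₁, s₂)` (with `l, w > 0`) the integral of `1/(n³ k) > 0` over the set is
`0` (the sections `{l : l = κ}`, `{l : l² = w}`, `{w : w = 1}`, `{φ : sin φ = κ}`, .. are null), so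
the set is null (`lintegral_eq_zero_iff`, Tonelli). -/
def VFR_stmt : Prop := ∀ κ : ℝ, 0 < κ → κ < 1 / 2 → volume (frontier (CenR κ)) = 0

/-! ## Boxes -/

/-- a box: lower and upper corner, coordinates `0 = Z, 1 = n, 2 = k, 3 = m, 4 = g` -/
structure Bx where
  lo : Fin 5 → ℝ
  hi : Fin 5 → ℝ

/-- the half open box -/
def Bx.set (b : Bx) : Set (ℝ × ℝ × ℝ × ℝ × ℝ) :=
  {x | (b.lo 0 < x.1 ∧ x.1 ≤ b.hi 0) ∧ (b.lo 1 < x.2.1 ∧ x.2.1 ≤ b.hi 1) ∧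
    (b.lo 2 < x.2.2.1 ∧ x.2.2.1 ≤ b.hi 2) ∧ (b.lo 3 < x.2.2.2.1 ∧ x.2.2.2.1 ≤ b.hi 3) ∧
    (b.lo 4 < x.2.2.2.2 ∧ x.2.2.2.2 ≤ b.hi 4)}

/-- an admissible box: nonempty, inside `Z, n, k ∈ [c, 1/c]`, `|m|, |g| ≤ 1/c` -/
def Bx.ok (b : Bx) (c : ℝ) : Prop :=
  (∀ i, b.lo i < b.hi i) ∧ c ≤ b.lo 1 ∧ c ≤ b.lo 2 ∧ c ≤ b.lo 0 ∧ (∀ i, -(1 / c) ≤ b.lo i) ∧
    ∀ i, b.hi i ≤ 1 / c

/-- the measure of a box, `dx/(n³ k)` -/
noncomputable def Bx.mu (b : Bx) : ℝ :=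
  (b.hi 0 - b.lo 0) * ((1 / b.lo 1 ^ 2 - 1 / b.hi 1 ^ 2) / 2) * Real.log (b.hi 2 / b.lo 2) *
    (b.hi 3 - b.lo 3) * (b.hi 4 - b.lo 4)

/-- **VMU** (short-medium).  The measure of an admissible box: Tonelli and
`∫_a^b dn/n³ = (1/a² - 1/b²)/2`, `∫_a^b dk/k = log(b/a)`. -/
def VMU_stmt : Prop := ∀ (c : ℝ) (b : Bx), 0 < c → b.ok c → 0 ≤ b.mu ∧
  MeasurableSet b.set ∧
  ∫⁻ x in b.set, ENNReal.ofReal (1 / (x.2.1 ^ 3 * x.2.2.1)) = ENNReal.ofReal b.mu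

/-- **VJB** (medium-long, general).  Approximation by grid boxes.  Let `S` be a bounded measurable
set with null frontier, contained in `{0 < c ≤ n, k}`, `Z ≥ c`.  For every `η > 0` there are
finitely many admissible disjoint boxes covering `S` such that the total measure of those which are
not contained in `S` is at most `η`.
Proof.  For `h = 1/M ≤ c/2` take the half open grid boxes of side `h` which meet `S` (finitely many,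
`S` bounded): disjoint, admissible for a constant `c'` depending on `c` and the bound of `S` only.
A grid box meeting `S` and its complement meets the frontier (it is convex, so preconnected:
`IsPreconnected` and `frontier`), so it is contained in `cthickening h (frontier S)` (sup
metric of the product: points of a box have distance at most `h`).  The frontier is compact, so
`volume (cthickening h (frontier S)) → volume (frontier S) = 0` as `h → 0`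
(`tendsto_measure_cthickening_of_isCompact`).  Disjoint boxes: total volume at most that, and the
density `1/(n³ k)` is at most `16/c⁴` there. -/
def VJB_stmt : Prop := ∀ (S : Set (ℝ × ℝ × ℝ × ℝ × ℝ)) (c : ℝ), 0 < c → MeasurableSet S →
  Bornology.IsBounded S → volume (frontier S) = 0 →
  (∀ x ∈ S, c ≤ x.1 ∧ c ≤ x.2.1 ∧ c ≤ x.2.2.1) → ∀ η : ℝ, 0 < η →
  ∃ (c' : ℝ) (r : ℕ) (b : Fin r → Bx) (I : Finset (Fin r)), 0 < c' ∧ (∀ i, (b i).ok c') ∧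
    (∀ i j, i ≠ j → Disjoint (b i).set (b j).set) ∧ (S ⊆ ⋃ i, (b i).set) ∧
    (∀ i ∈ I, (b i).set ⊆ S) ∧ ∑ i ∈ Iᶜ, (b i).mu ≤ η

/-- **VLM** (short).  `Iv κ → (π²/2)(1 - 1/√2)` as `κ → 0`, in the form of an inequality:
`arcsin κ ≤ π κ/2`, `2 - √2 = 2 (1 - 1/√2)`. -/
def VLM_stmt : Prop := ∃ C : ℝ, 0 < C ∧ ∀ κ : ℝ, 0 < κ → κ < 1 / 2 →
  |Iv κ - Real.pi ^ 2 / 2 * (1 - 1 / √2)| ≤ C * κ ∧ 0 < Iv κ ∧ Iv κ ≤ C

/-! ## Composition -/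

/-- what TAS uses: boxes approximating the central region -/
def V_stmt : Prop := ∀ κ η : ℝ, 0 < κ → κ < 1 / 2 → 0 < η →
  ∃ (c : ℝ) (r : ℕ) (b : Fin r → Bx) (I : Finset (Fin r)), 0 < c ∧ (∀ i, (b i).ok c) ∧
    (∀ i j, i ≠ j → Disjoint (b i).set (b j).set) ∧ (CenR κ ⊆ ⋃ i, (b i).set) ∧
    (∀ i ∈ I, (b i).set ⊆ CenR κ) ∧ (∑ i, (b i).mu ≤ Iv κ + η) ∧ (Iv κ - η ≤ ∑ i ∈ I, (b i).mu)

/-- **VBX** (medium).  From VJB (for `S = CenR κ`, bounded by VBD, `c = min (κ²) (1/2)`), VVL, VFR,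
VMU: with `η` in VJB, `∑ mu` over all the boxes is the measure of the union, between `Iv κ` (covering)
and `Iv κ + η` (the boxes of `I` are disjoint subsets of `CenR κ`); the boxes of `I`: at least
`Iv κ - η`. -/
def VBX_stmt : Prop := V_stmt

end Pool.Agent.T5V
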