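import Pool.Agent.helper94.T5.SpecT

set_option autoImplicit false

namespace Pool.Agent.T5T

open Finset Pool.Agent.T5

lemma TA7_prod_pos (S : Finset ℕ) (hS : ∀ p ∈ S, p.Prime) :
    0 < ∏ p ∈ S, (1 - 1 / (p : ℝ) ^ 2) := by
  refine Finset.prod_pos fun p hp => ?_
  have h1 : (1 : ℝ) < p := by exact_mod_cast (hS p hp).one_lt
  have h2 : (1 : ℝ) < (p : ℝ) ^ 2 := by nlinarith
  have h3 : 1 / (p : ℝ) ^ 2 < 1 := by
    rw [div_lt_one (by positivity)]; exact h2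
  linarith

lemma TA7_B_pos (S : Finset ℕ) (hS : ∀ p ∈ S, p.Prime) :
    0 < ∏ p ∈ S, ((p : ℝ) / (p - 1)) ^ 2 := by
  refine Finset.prod_pos fun p hp => ?_
  have h1 : (1 : ℝ) < p := by exact_mod_cast (hS p hp).one_lt
  have h2 : (0 : ℝ) < (p : ℝ) / (p - 1) := div_pos (by linarith) (by linarith)
  positivity

/-- the main term of EQC for a box -/
lemma TA7_main (b : T5V.Bx) (Q P e' : ℝ) :
    Q * ((((aa b 0) ^ 2)⁻¹ - ((bb b 0) ^ 2)⁻¹) / 2 * Real.log (bb b 1 / aa b 1) *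
      (bb b 2 - aa b 2) * (bb b 3 - aa b 3) * (bb b 4 - aa b 4) * (6 / Real.pi ^ 2) / (P * e')) =
    Q * (b.mu * (6 / Real.pi ^ 2) / (P * e')) := by
  have h : (((aa b 0) ^ 2)⁻¹ - ((bb b 0) ^ 2)⁻¹) / 2 * Real.log (bb b 1 / aa b 1) *
      (bb b 2 - aa b 2) * (bb b 3 - aa b 3) * (bb b 4 - aa b 4) = b.mu := by
    simp only [aa, bb, T5V.Bx.mu, Matrix.cons_val_zero, Matrix.cons_val_one, Matrix.cons_val]
    simp only [one_div]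
    ring
  rw [h]

open Classical in
theorem TA7 (hPC : Pool.Agent.T5P.PC_stmt) (hPIN : Pool.Agent.T5P.PIN_stmt) (hTA4 : TA4_stmt)
    (hTA5 : TA5_stmt) (hTA6 : TA6_stmt) : TA7_stmt := by
  intro δ hE b hlt h0 h1 h2 w ε hε
  have hS : ∀ p ∈ pr w, p.Prime := fun p hp => (Finset.mem_filter.mp hp).2
  obtain ⟨he1, hpf, hedvd, -, hFF⟩ := hTA5 (pr w) hS
  have hPCw := hPC (pr w) hS
  obtain ⟨hPI, -⟩ := hPIN (pr w) hS
  have hP := TA7_prod_pos (pr w) hS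
  have hB := TA7_B_pos (pr w) hS
  have hsix := hTA6 w
  set e : ℕ := T5P.ee (pr w) with he
  set P : ℝ := ∏ p ∈ pr w, (1 - 1 / (p : ℝ) ^ 2) with hPdef
  set B : ℝ := ∏ p ∈ pr w, ((p : ℝ) / (p - 1)) ^ 2 with hBdef
  have he0 : (0 : ℝ) < e := by exact_mod_cast he1
  set ε' : ℝ := ε / ((e : ℝ) ^ 5 * B) with hε'
  have hε0 : 0 < ε' := by positivity
  -- the condition of EQC
  have key : ∀ x : ℕ × ℕ × ℕ × ℕ × ℕ, ∃ N₀ : ℝ,
      T5P.FF (pr w) x.1 x.2.1 x.2.2.1 x.2.2.2.1 x.2.2.2.2 ≠ 0 → ∀ N Y : ℝ, N₀ ≤ N →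
      N ^ (0.39 : ℝ) ≤ Y → Y ≤ N ^ (1 / 2 - δ) →
      ∀ F : Finset Tpl, (∀ t, t ∈ F ↔ InCell N Y (N ^ (1 / 2 + δ / 100)) (aa b) (bb b) e
        ![(x.1 : ℤ), x.2.1, x.2.2.1, x.2.2.2.1, x.2.2.2.2] t) →
      |(F.card : ℝ) - Y * N ^ (1 / 2 + δ / 100) * (b.mu * (6 / Real.pi ^ 2) /
        (P * ((e : ℝ) ^ 4 * (e1 e x.1 : ℝ))))| ≤ ε' * (Y * N ^ (1 / 2 + δ / 100)) := by
    intro x
    by_cases hx : T5P.FF (pr w) x.1 x.2.1 x.2.2.1 x.2.2.2.1 x.2.2.2.2 = 0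
    · exact ⟨0, fun h => absurd hx h⟩
    · obtain ⟨N₀, hN₀⟩ := hE (aa b) (bb b) h1 h2 h0
        (by
          intro i
          fin_cases i
          · exact hlt 1
          · exact hlt 2
          · exact hlt 3
          · exact hlt 4
          · exact hlt 0) e ![(x.1 : ℤ), x.2.1, x.2.2.1, x.2.2.2.1, x.2.2.2.2] he1
        (fun p hp hpe => hFF _ _ _ _ _ hx p hp hpe) ε' hε0
      refine ⟨N₀, fun _ N Y a1 a2 a3 F hF => ?_⟩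
      have h := hN₀ N Y a1 a2 a3 F hF
      rw [hpf, TA7_main b _ _ _] at h
      exact h
  choose N₀ hN₀ using key
  set X : Finset (ℕ × ℕ × ℕ × ℕ × ℕ) := range e ×ˢ range e ×ˢ range e ×ˢ range e ×ˢ range e
    with hX
  have hXcard : (X.card : ℝ) = (e : ℝ) ^ 5 := by
    rw [hX]
    simp only [Finset.card_product, Finset.card_range]
    push_cast
    ring
  refine ⟨∑ x ∈ X, |N₀ x| + 1, fun N Y hN hY1 hY2 F hF => ?_⟩
  have hNx : ∀ x ∈ X, N₀ x ≤ N := by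
    intro x hx
    have a1 : |N₀ x| ≤ ∑ y ∈ X, |N₀ y| :=
      Finset.single_le_sum (fun j _ => abs_nonneg (N₀ j)) hx
    have a2 := le_abs_self (N₀ x)
    linarith
  have hN1 : 1 ≤ N := by
    have a1 : 0 ≤ ∑ y ∈ X, |N₀ y| := Finset.sum_nonneg fun j _ => abs_nonneg (N₀ j)
    linarith
  have hN0 : 0 < N := by linarith
  have hY0 : 0 < Y := lt_of_lt_of_le (Real.rpow_pos_of_pos hN0 _) hY1
  have hYY : 0 < N ^ (1 / 2 + δ / 100) := Real.rpow_pos_of_pos hN0 _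
  set Y₂ : ℝ := N ^ (1 / 2 + δ / 100) with hY₂
  have hQ : 0 < Y * Y₂ := mul_pos hY0 hYY
  -- the two sums over `X`
  have hs1 : ∑ t ∈ F, fw w t = ∑ x ∈ X, T5P.FF (pr w) x.1 x.2.1 x.2.2.1 x.2.2.2.1 x.2.2.2.2 *
      ((e1 e x.1 : ℝ) / (e : ℝ)) *
        ((F.filter (fun t => cls e x.1 x.2.1 x.2.2.1 x.2.2.2.1 x.2.2.2.2 t)).card : ℝ) := by
    rw [hsix F (fun t ht => ((hF t).mp ht).1), hX]
    simp only [Finset.sum_product]
  have hs2 : ∑ x ∈ X, T5P.FF (pr w) x.1 x.2.1 x.2.2.1 x.2.2.2.1 x.2.2.2.2 =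
      (e : ℝ) ^ 5 * P ^ 2 := by
    have a1 : (∏ p ∈ pr w, (1 - 1 / (p : ℝ) ^ 2) ^ 2) = P ^ 2 := by
      rw [hPdef, Finset.prod_pow]
    rw [← a1, ← hPCw, hX]
    simp only [Finset.sum_product]
  have hterm : ∀ x ∈ X, |T5P.FF (pr w) x.1 x.2.1 x.2.2.1 x.2.2.2.1 x.2.2.2.2 *
      ((e1 e x.1 : ℝ) / (e : ℝ)) *
        ((F.filter (fun t => cls e x.1 x.2.1 x.2.2.1 x.2.2.2.1 x.2.2.2.2 t)).card : ℝ) -
      T5P.FF (pr w) x.1 x.2.1 x.2.2.1 x.2.2.2.1 x.2.2.2.2 *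
        (Y * Y₂ * (b.mu * (6 / Real.pi ^ 2)) / (P * (e : ℝ) ^ 5))| ≤ B * (ε' * (Y * Y₂)) := by
    intro x hx
    by_cases hx0 : T5P.FF (pr w) x.1 x.2.1 x.2.2.1 x.2.2.2.1 x.2.2.2.2 = 0
    · rw [hx0, zero_mul, zero_mul, zero_mul, sub_zero, abs_zero]
      positivity
    · obtain ⟨d1, d2, -⟩ := hedvd x.1
      have d3 : e1 e x.1 ≤ e := Nat.le_of_dvd he1 d1
      have d4 : (0 : ℝ) < (e1 e x.1 : ℝ) := by exact_mod_cast d2
      have d5 : (e1 e x.1 : ℝ) / (e : ℝ) ≤ 1 := by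
        rw [div_le_one he0]; exact_mod_cast d3
      have hc := hN₀ x hx0 N Y (hNx x hx) hY1 hY2
        (F.filter (fun t => cls e x.1 x.2.1 x.2.2.1 x.2.2.2.1 x.2.2.2.2 t)) (by
          intro t
          rw [hTA4 N Y Y₂ hN0 hY0 hYY b e _ _ _ _ _ t, Finset.mem_filter, hF t]
          tauto)
      have a1 : T5P.FF (pr w) x.1 x.2.1 x.2.2.1 x.2.2.2.1 x.2.2.2.2 *
          (Y * Y₂ * (b.mu * (6 / Real.pi ^ 2)) / (P * (e : ℝ) ^ 5)) =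
          T5P.FF (pr w) x.1 x.2.1 x.2.2.1 x.2.2.2.1 x.2.2.2.2 * ((e1 e x.1 : ℝ) / (e : ℝ)) *
          (Y * Y₂ * (b.mu * (6 / Real.pi ^ 2) / (P * ((e : ℝ) ^ 4 * (e1 e x.1 : ℝ))))) := by
        field_simp
      rw [a1, ← mul_sub, abs_mul]
      obtain ⟨f0, f1⟩ := hPI x.1 x.2.1 x.2.2.1 x.2.2.2.1 x.2.2.2.2
      have a2 : |T5P.FF (pr w) x.1 x.2.1 x.2.2.1 x.2.2.2.1 x.2.2.2.2 *
          ((e1 e x.1 : ℝ) / (e : ℝ))| ≤ B := by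
        rw [abs_of_nonneg (mul_nonneg f0 (by positivity))]
        calc _ ≤ T5P.FF (pr w) x.1 x.2.1 x.2.2.1 x.2.2.2.1 x.2.2.2.2 * 1 :=
              mul_le_mul_of_nonneg_left d5 f0
          _ ≤ B := by rw [mul_one]; exact f1
      exact mul_le_mul a2 hc (abs_nonneg _) hB.le
  have hmain : Y * Y₂ * (b.mu * (6 / Real.pi ^ 2) * P) =
      ∑ x ∈ X, T5P.FF (pr w) x.1 x.2.1 x.2.2.1 x.2.2.2.1 x.2.2.2.2 *
        (Y * Y₂ * (b.mu * (6 / Real.pi ^ 2)) / (P * (e : ℝ) ^ 5)) := by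
    rw [← Finset.sum_mul, hs2]
    field_simp
  rw [hmain, hs1, ← Finset.sum_sub_distrib]
  refine (Finset.abs_sum_le_sum_abs _ _).trans ((Finset.sum_le_sum hterm).trans (le_of_eq ?_))
  rw [Finset.sum_const, nsmul_eq_mul, hXcard, hε']
  field_simp

end Pool.Agent.T5T
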