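import Pool.Agent.helper94.T5.SpecT

set_option autoImplicit false

namespace Pool.Agent.T5T

open Finset Pool.Agent.T5

open Classical in
lemma TA9_fp_nonneg (p : ℕ) (hp : p.Prime) (t : Tpl) : 0 ≤ fp p t := by
  have h1 : (1 : ℝ) < p := by exact_mod_cast hp.one_lt
  have h2 : (0 : ℝ) ≤ (p : ℝ) / (p - 1) := div_nonneg (by linarith) (by linarith)
  unfold fp
  split_ifs
  · exact h2
  · exact le_refl _
  · exact le_refl _
  · exact pow_nonneg h2 2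
  · exact h2

lemma TA9_fw_nonneg (w : ℕ) (t : Tpl) : 0 ≤ fw w t := by
  unfold fw
  refine Finset.prod_nonneg fun p hp => TA9_fp_nonneg p ?_ t
  exact (Finset.mem_filter.mp hp).2

lemma TA9_prod (w : ℕ) : 0 ≤ ∏ p ∈ pr w, (1 - 1 / (p : ℝ) ^ 2) ∧
    ∏ p ∈ pr w, (1 - 1 / (p : ℝ) ^ 2) ≤ 1 := by
  have h : ∀ p ∈ pr w, 0 ≤ 1 - 1 / (p : ℝ) ^ 2 ∧ 1 - 1 / (p : ℝ) ^ 2 ≤ 1 := by
    intro p hp
    have hp' : p.Prime := (Finset.mem_filter.mp hp).2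
    have h1 : (1 : ℝ) < p := by exact_mod_cast hp'.one_lt
    have h2 : (1 : ℝ) ≤ (p : ℝ) ^ 2 := by nlinarith
    have h3 : 1 / (p : ℝ) ^ 2 ≤ 1 := by
      rw [div_le_one (by positivity)]; exact h2
    have h4 : 0 ≤ 1 / (p : ℝ) ^ 2 := by positivity
    exact ⟨by linarith, by linarith⟩
  exact ⟨Finset.prod_nonneg fun p hp => (h p hp).1,
    Finset.prod_le_one (fun p hp => (h p hp).1) fun p hp => (h p hp).2⟩

lemma TA9_six : (6 : ℝ) / Real.pi ^ 2 ≤ 1 := by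
  rw [div_le_one (by positivity)]
  nlinarith [Real.pi_gt_three]

theorem TA9 (hTA3 : TA3_stmt) (hTA7 : TA7_stmt) (hTA8 : TA8_stmt) : TA9_stmt := by
  classical
  intro hV hL δ hE
  obtain ⟨C, hC, hCb⟩ := hL
  refine ⟨T5V.Iv, C, fun κ h0 h1 => (hCb κ h0 (by linarith)).1, ?_⟩
  intro κ hκ hκ1 w hw ε hε
  obtain ⟨hP0, hP1⟩ := TA9_prod w
  set Pw : ℝ := ∏ p ∈ pr w, (1 - 1 / (p : ℝ) ^ 2) with hPw
  obtain ⟨c, r, b, I, hc, hok, hdis, hcov, hin, hsum, hsumI⟩ :=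
    hV κ (ε / 2) hκ (by linarith) (by linarith)
  have key : ∀ i : Fin r, ∃ N₀ : ℝ, ∀ N Y : ℝ, N₀ ≤ N → N ^ (0.39 : ℝ) ≤ Y →
      Y ≤ N ^ (1 / 2 - δ) →
      ∀ F : Finset Tpl, (∀ t, t ∈ F ↔ IsT t ∧ sp N Y (N ^ (1 / 2 + δ / 100)) t ∈ (b i).set) →
      |∑ t ∈ F, fw w t - Y * N ^ (1 / 2 + δ / 100) * ((b i).mu * (6 / Real.pi ^ 2) * Pw)| ≤
        ε / (2 * ((r : ℝ) + 1)) * (Y * N ^ (1 / 2 + δ / 100)) := by
    intro i
    obtain ⟨h1, h2, h3, h4, -, -⟩ := hok i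
    exact hTA7 δ hE (b i) h1 (lt_of_lt_of_le hc h4) (lt_of_lt_of_le hc h2) (lt_of_lt_of_le hc h3) w
      (ε / (2 * ((r : ℝ) + 1))) (by positivity)
  choose N₀ hN₀ using key
  refine ⟨∑ i, |N₀ i| + 1, fun N Y hN hY1 hY2 F hF => ?_⟩
  have hNi : ∀ i, N₀ i ≤ N := by
    intro i
    have h1 : |N₀ i| ≤ ∑ j, |N₀ j| :=
      Finset.single_le_sum (fun j _ => abs_nonneg (N₀ j)) (Finset.mem_univ i)
    have h2 := le_abs_self (N₀ i)
    linarith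
  have hN1 : 1 ≤ N := by
    have h1 : 0 ≤ ∑ j, |N₀ j| := Finset.sum_nonneg fun j _ => abs_nonneg (N₀ j)
    linarith
  have hN0 : 0 < N := by linarith
  have hY0 : 0 < Y := lt_of_lt_of_le (Real.rpow_pos_of_pos hN0 _) hY1
  have hYY : 0 < N ^ (1 / 2 + δ / 100) := Real.rpow_pos_of_pos hN0 _
  set Y₂ : ℝ := N ^ (1 / 2 + δ / 100) with hY₂
  have hQ : 0 < Y * Y₂ := mul_pos hY0 hYY
  let Fb : Fin r → Finset Tpl := fun i =>
    ((hTA8 N Y Y₂ hN0 hY0 hYY (b i)).toFinset).filter (fun t => IsT t)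
  have hFb : ∀ i t, t ∈ Fb i ↔ IsT t ∧ sp N Y Y₂ t ∈ (b i).set := by
    intro i t
    simp only [Fb, Finset.mem_filter, Set.Finite.mem_toFinset, Set.mem_ofPred_eq]
    tauto
  have hdisF : ∀ i j, i ≠ j → Disjoint (Fb i) (Fb j) := by
    intro i j hij
    rw [Finset.disjoint_left]
    intro t h1 h2
    exact Set.disjoint_left.mp (hdis i j hij) ((hFb i t).mp h1).2 ((hFb j t).mp h2).2
  have hbox : ∀ i, |∑ t ∈ Fb i, fw w t - Y * Y₂ * ((b i).mu * (6 / Real.pi ^ 2) * Pw)| ≤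
      ε / (2 * ((r : ℝ) + 1)) * (Y * Y₂) := fun i => hN₀ i N Y (hNi i) hY1 hY2 (Fb i) (hFb i)
  set E : ℝ := ε / (2 * ((r : ℝ) + 1)) with hEdef
  have hE0 : 0 < E := by positivity
  have hrE : ∀ x : ℝ, 0 ≤ x → x ≤ r → x * E ≤ ε / 2 := by
    intro x h0 h1
    rw [hEdef, ← mul_div_assoc, div_le_div_iff₀ (by positivity) (by norm_num)]
    nlinarith
  set c' : ℝ := 6 / Real.pi ^ 2 * Pw with hc'
  have hc0 : 0 ≤ c' := mul_nonneg (by positivity) hP0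
  have hc1 : c' ≤ 1 := mul_le_one₀ TA9_six hP0 hP1
  -- upper bound
  have hup : ∑ t ∈ F, fw w t ≤ ∑ i, ∑ t ∈ Fb i, fw w t := by
    rw [← Finset.sum_biUnion (fun i _ j _ hij => hdisF i j hij)]
    refine Finset.sum_le_sum_of_subset_of_nonneg ?_ fun t _ _ => TA9_fw_nonneg w t
    intro t ht
    have h1 := (hTA3 κ N Y Y₂ hκ hN0 hY0 hYY t).mp ((hF t).mp ht)
    obtain ⟨i, hi⟩ := Set.mem_iUnion.mp (hcov h1.2)
    exact Finset.mem_biUnion.mpr ⟨i, Finset.mem_univ i, (hFb i t).mpr ⟨h1.1, hi⟩⟩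
  have hlo : ∑ i ∈ I, ∑ t ∈ Fb i, fw w t ≤ ∑ t ∈ F, fw w t := by
    rw [← Finset.sum_biUnion (fun i _ j _ hij => hdisF i j hij)]
    refine Finset.sum_le_sum_of_subset_of_nonneg ?_ fun t _ _ => TA9_fw_nonneg w t
    intro t ht
    obtain ⟨i, hi, h2⟩ := Finset.mem_biUnion.mp ht
    have h3 := (hFb i t).mp h2
    exact (hF t).mpr ((hTA3 κ N Y Y₂ hκ hN0 hY0 hYY t).mpr ⟨h3.1, hin i hi h3.2⟩)
  have hup2 : ∑ i, ∑ t ∈ Fb i, fw w t ≤ Y * Y₂ * (c' * ∑ i, (b i).mu) + (r : ℝ) * E * (Y * Y₂) := by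
    have h1 : ∀ i ∈ (Finset.univ : Finset (Fin r)), ∑ t ∈ Fb i, fw w t ≤
        Y * Y₂ * (c' * (b i).mu) + E * (Y * Y₂) := by
      intro i _
      have h2 := (abs_le.mp (hbox i)).2
      have h3 : (b i).mu * (6 / Real.pi ^ 2) * Pw = c' * (b i).mu := by rw [hc']; ring
      rw [h3] at h2
      linarith
    refine (Finset.sum_le_sum h1).trans (le_of_eq ?_)
    rw [Finset.sum_add_distrib, ← Finset.mul_sum, ← Finset.mul_sum]
    simp only [Finset.sum_const, Finset.card_univ, Fintype.card_fin, nsmul_eq_mul]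
    ring
  have hlo2 : Y * Y₂ * (c' * ∑ i ∈ I, (b i).mu) - (I.card : ℝ) * E * (Y * Y₂) ≤
      ∑ i ∈ I, ∑ t ∈ Fb i, fw w t := by
    have h1 : ∀ i ∈ I, Y * Y₂ * (c' * (b i).mu) - E * (Y * Y₂) ≤ ∑ t ∈ Fb i, fw w t := by
      intro i _
      have h2 := (abs_le.mp (hbox i)).1
      have h3 : (b i).mu * (6 / Real.pi ^ 2) * Pw = c' * (b i).mu := by rw [hc']; ring
      rw [h3] at h2
      linarith
    refine le_trans (le_of_eq ?_) (Finset.sum_le_sum h1)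
    rw [Finset.sum_sub_distrib, ← Finset.mul_sum, ← Finset.mul_sum]
    simp only [Finset.sum_const, nsmul_eq_mul]
    ring
  have hIr : (I.card : ℝ) ≤ r := by
    have h1 := Finset.card_le_univ I
    rw [Fintype.card_fin] at h1
    exact_mod_cast h1
  have e1 := hrE r (by positivity) (le_refl _)
  have e2 := hrE I.card (by positivity) hIr
  have hm : Y * Y₂ * (T5V.Iv κ * (6 / Real.pi ^ 2) * Pw) = Y * Y₂ * (c' * T5V.Iv κ) := by
    rw [hc']; ring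
  rw [hm, abs_le]
  have u1 : c' * ∑ i, (b i).mu ≤ c' * T5V.Iv κ + ε / 2 := by
    have h1 : c' * ∑ i, (b i).mu ≤ c' * (T5V.Iv κ + ε / 2) := mul_le_mul_of_nonneg_left hsum hc0
    have h2 : c' * (ε / 2) ≤ 1 * (ε / 2) := mul_le_mul_of_nonneg_right hc1 (by linarith)
    linarith [mul_add c' (T5V.Iv κ) (ε / 2)]
  have u2 : c' * T5V.Iv κ - ε / 2 ≤ c' * ∑ i ∈ I, (b i).mu := by
    have h1 : c' * (T5V.Iv κ - ε / 2) ≤ c' * ∑ i ∈ I, (b i).mu :=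
      mul_le_mul_of_nonneg_left hsumI hc0
    have h2 : c' * (ε / 2) ≤ 1 * (ε / 2) := mul_le_mul_of_nonneg_right hc1 (by linarith)
    linarith [mul_sub c' (T5V.Iv κ) (ε / 2)]
  constructor
  · have v1 := mul_le_mul_of_nonneg_left u2 hQ.le
    have v2 := mul_le_mul_of_nonneg_right e2 hQ.le
    nlinarith [hlo, hlo2, v1, v2]
  · have v1 := mul_le_mul_of_nonneg_left u1 hQ.le
    have v2 := mul_le_mul_of_nonneg_right e1 hQ.le
    nlinarith [hup, hup2, v1, v2]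

end Pool.Agent.T5T
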