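import Pool.Agent.helper94.T5.AsmP
import Pool.Agent.helper72.T5.VAF
import Pool.Agent.helper43.T5.VDW
import Pool.Agent.helper50.T5.VGM
import Pool.Agent.helper68.T5.VE2
import Pool.Agent.helper11.T5.VID
import Pool.Agent.helper53.T5.VCV
import Pool.Agent.helper78.T5.VBD
import Pool.Agent.helper52.T5.VVL
import Pool.Agent.helper84.T5.VFR
import Pool.Agent.helper62.T5.VMU
import Pool.Agent.helper5.T5.VJB
import Pool.Agent.helper20.T5.VLM
import Pool.Agent.helper53.T5.VBX
import Pool.Agent.helper18.T5.TA1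
import Pool.Agent.helper18.T5.TA2
import Pool.Agent.helper85.T5.TA3
import Pool.Agent.helper50.T5.TA4
import Pool.Agent.helper14.T5.TA5
import Pool.Agent.helper14.T5.TA6
import Pool.Agent.helper94.T5.TA7
import Pool.Agent.helper24.T5.TA8
import Pool.Agent.helper94.T5.TA9

set_option autoImplicit false

/-!
# T5, blocks P, V, TAS: composition
-/

namespace Pool.Agent.T5T

open Pool.Agent.T5

/-- block V -/
theorem V_all : T5V.V_stmt := by
  have hCV := T5V.VCV T5V.VAF T5V.VDW (T5V.VE2 T5V.VGM) T5V.VID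
  exact T5V.VBX T5V.VBD (T5V.VVL hCV) (T5V.VFR hCV T5V.VBD) T5V.VMU (T5V.VJB T5V.VMU)

/-- block TAS: the weighted asymptotic from equidistribution -/
theorem TAS (δ : ℝ) (hE : EQC_stmt δ) : TAS_stmt δ := by
  obtain ⟨hPL, hPC, hPIN⟩ := T5P.P_all
  have h6 := TA6 hPIN (TA2 hPL TA1) TA5
  exact TA9 (TA3 TA1) (TA7 hPC hPIN TA4 TA5 h6) TA8 V_all T5V.VLM δ hE

end Pool.Agent.T5T
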