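import Pool.Agent.helper94.T5.SpecP

set_option autoImplicit false

namespace Pool.Agent.T5P

open Finset

/-- change of variables `R ↦ m² + k R` for a unit `k` -/
noncomputable def PZ_eqv (A : Type) [CommRing A] (k : Aˣ) : A × A × A ≃ A × A × A where
  toFun v := (v.1, v.2.1, v.1 ^ 2 + (k : A) * v.2.2)
  invFun w := (w.1, w.2.1, (↑k⁻¹ : A) * (w.2.2 - w.1 ^ 2))
  left_inv v := by
    obtain ⟨a, b, c⟩ := v
    simp only [Prod.mk.injEq, true_and]
    rw [show a ^ 2 + (k : A) * c - a ^ 2 = (k : A) * c by ring, ← mul_assoc, Units.inv_mul, one_mul]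
  right_inv w := by
    obtain ⟨a, b, c⟩ := w
    simp only [Prod.mk.injEq, true_and]
    rw [← mul_assoc, Units.mul_inv, one_mul]
    ring

/-- splitting of a product condition on the three coordinates -/
def PZ_split (A : Type) (P Q S : A → Prop) :
    {v : A × A × A // P v.1 ∧ Q v.2.1 ∧ S v.2.2} ≃ {x // P x} × {x // Q x} × {x // S x} where
  toFun v := (⟨v.1.1, v.2.1⟩, ⟨v.1.2.1, v.2.2.1⟩, ⟨v.1.2.2, v.2.2.2⟩)
  invFun w := ⟨(w.1.1, w.2.1.1, w.2.2.1), w.1.2, w.2.1.2, w.2.2.2⟩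
  left_inv _ := rfl
  right_inv _ := rfl

lemma PZ_card (A : Type) (P Q S : A → Prop) :
    Nat.card {v : A × A × A // P v.1 ∧ Q v.2.1 ∧ S v.2.2} =
      Nat.card {x // P x} * (Nat.card {x // Q x} * Nat.card {x // S x}) := by
  rw [Nat.card_congr (PZ_split A P Q S), Nat.card_prod, Nat.card_prod]

theorem PZ (hPD : PD_stmt) : PZ_stmt := by
  intro p hp hp2 n k hn
  obtain ⟨-, hadd, hmul, hunit, hzero, hc1, hc2⟩ := hPD p
  have hp0 : p ≠ 0 := hp.out.ne_zero
  have : NeZero (p ^ 2) := ⟨pow_ne_zero 2 hp0⟩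
  have hd0 : dv p (0 : ZMod (p ^ 2)) := by unfold dv; rw [mul_zero]
  have hneg : ∀ x : ZMod (p ^ 2), dv p x → dv p (-x) := by
    intro x hx
    unfold dv at hx ⊢
    rw [mul_neg, hx, neg_zero]
  have hsub : ∀ x y : ZMod (p ^ 2), dv p (x + y) → dv p x → dv p y := by
    intro x y h1 h2
    have h3 := hadd _ _ h1 (hneg x h2)
    rwa [show x + y + -x = y by ring] at h3
  have hsub' : ∀ x y : ZMod (p ^ 2), dv p (x + y) → dv p y → dv p x := by
    intro x y h1 h2
    exact hsub y x (by rwa [add_comm] at h1) h2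
  have hsq : ∀ x : ZMod (p ^ 2), dv p (x ^ 2) → dv p x := by
    intro x hx
    rw [sq] at hx
    rcases (hmul x x).mp hx with h | h <;> exact h
  have hT : Nat.card {x : ZMod (p ^ 2) // True} = p ^ 2 := by
    rw [Nat.card_congr (Equiv.subtypeUnivEquiv (fun _ => trivial)), Nat.card_zmod]
  -- `l` in terms of `m`, `g` if `p ∣ z`
  have hll : ∀ m g R : ZMod (p ^ 2), dv p (zz p k m R) →
      (dv p (ll p n k m g R) ↔ dv p m ∨ dv p g) := by
    intro m g R hz
    have h1 : dv p ((m ^ 2 + k * R) * k ^ 2) := (hmul _ _).mpr (Or.inl hz)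
    unfold ll
    constructor
    · intro h
      have h2 := hsub' _ _ h h1
      rcases (hmul _ _).mp h2 with h3 | h3
      · rcases (hmul _ _).mp h3 with h4 | h4
        · exact absurd (hsq n h4) hn
        · exact Or.inl h4
      · exact Or.inr h3
    · intro h
      refine hadd _ _ ?_ h1
      rcases h with h | h
      · exact (hmul _ _).mpr (Or.inl ((hmul _ _).mpr (Or.inr h)))
      · exact (hmul _ _).mpr (Or.inr h)
  refine ⟨?_, ?_, ?_, ?_⟩
  · -- (1)
    by_cases hk : dv p k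
    · have h1 : ∀ v : ZMod (p ^ 2) × ZMod (p ^ 2) × ZMod (p ^ 2),
          (¬ dv p (zz p k v.1 v.2.2)) ↔ (¬ dv p v.1 ∧ True ∧ True) := by
        intro v
        rw [and_true, and_true]
        have h2 : dv p (k * v.2.2) := (hmul _ _).mpr (Or.inl hk)
        unfold zz
        constructor
        · intro h h3
          exact h (hadd _ _ (by rw [sq]; exact (hmul _ _).mpr (Or.inl h3)) h2)
        · intro h h3
          exact h (hsq _ (hsub' _ _ h3 h2))
      rw [Nat.card_congr (Equiv.subtypeEquivRight h1),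
        PZ_card (ZMod (p ^ 2)) (fun x => ¬ dv p x) (fun _ => True) (fun _ => True), hT, hc2]
      ring
    · obtain ⟨u, hu⟩ := (hunit k).mpr hk
      have h1 : Nat.card {v : ZMod (p ^ 2) × ZMod (p ^ 2) × ZMod (p ^ 2) //
          ¬ dv p (zz p k v.1 v.2.2)} = Nat.card {v : ZMod (p ^ 2) × ZMod (p ^ 2) × ZMod (p ^ 2) //
          True ∧ True ∧ ¬ dv p v.2.2} := by
        refine Nat.card_congr (Equiv.subtypeEquiv (PZ_eqv (ZMod (p ^ 2)) u) ?_)
        intro v
        rw [true_and, true_and]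
        unfold zz PZ_eqv
        rw [← hu]
        rfl
      rw [h1, PZ_card (ZMod (p ^ 2)) (fun _ => True) (fun _ => True) (fun x => ¬ dv p x), hT, hc2]
      ring
  · -- (2)
    intro hk
    obtain ⟨u, hu⟩ := (hunit k).mpr hk
    have h1 : Nat.card {v : ZMod (p ^ 2) × ZMod (p ^ 2) × ZMod (p ^ 2) //
        dv p (zz p k v.1 v.2.2) ∧ ¬ dv p (ll p n k v.1 v.2.1 v.2.2)} =
        Nat.card {v : ZMod (p ^ 2) × ZMod (p ^ 2) × ZMod (p ^ 2) //
        ¬ dv p v.1 ∧ ¬ dv p v.2.1 ∧ dv p v.2.2} := by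
      refine Nat.card_congr (Equiv.subtypeEquiv (PZ_eqv (ZMod (p ^ 2)) u) ?_)
      intro v
      have h2 : (PZ_eqv (ZMod (p ^ 2)) u v).2.2 = zz p k v.1 v.2.2 := by
        unfold zz PZ_eqv
        rw [← hu]
        rfl
      have h3 : (PZ_eqv (ZMod (p ^ 2)) u v).1 = v.1 := rfl
      have h4 : (PZ_eqv (ZMod (p ^ 2)) u v).2.1 = v.2.1 := rfl
      rw [h2, h3, h4]
      constructor
      · rintro ⟨a, b⟩
        rw [hll _ _ _ a] at b
        push Not at b
        exact ⟨b.1, b.2, a⟩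
      · rintro ⟨a, b, c⟩
        refine ⟨c, ?_⟩
        rw [hll _ _ _ c]
        push Not
        exact ⟨a, b⟩
    rw [h1, PZ_card (ZMod (p ^ 2)) (fun x => ¬ dv p x) (fun x => ¬ dv p x) (fun x => dv p x), hc1,
      hc2]
    ring
  · -- (3)
    intro hk m g R hz
    rw [hll m g R hz]
    left
    unfold zz at hz
    exact hsq _ (hsub' _ _ hz ((hmul _ _).mpr (Or.inl hk)))
  · -- (4)
    intro m g R hz hl hnf
    rw [hll m g R hz] at hl
    push Not at hl
    unfold nf at hnf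
    rw [if_neg hp2] at hnf
    have h1 : (4 : ZMod (p ^ 2)) * zz p k m R ^ 2 * ll p n k m g R = 0 := by
      have h0 : zz p k m R ^ 2 = 0 := by rw [sq (zz p k m R)]; exact hzero _ _ hz hz
      rw [h0]
      ring
    rw [h1] at hnf
    have h2 : dv p (ss p n k m g R) := hsq _ (by rw [hnf]; exact hd0)
    have h3 : dv p (m * k * (m ^ 2 + k * R)) := (hmul _ _).mpr (Or.inr hz)
    have h4 : dv p (n ^ 2 * g * R) := by
      have h5 := hadd _ _ h2 h3
      unfold ss at h5
      rwa [show n ^ 2 * g * R - m * k * (m ^ 2 + k * R) + m * k * (m ^ 2 + k * R) =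
        n ^ 2 * g * R by ring] at h5
    rcases (hmul _ _).mp h4 with h5 | h5
    · rcases (hmul _ _).mp h5 with h6 | h6
      · exact hn (hsq n h6)
      · exact hl.2 h6
    · unfold zz at hz
      exact hl.1 (hsq _ (hsub' _ _ hz ((hmul _ _).mpr (Or.inr h5))))

end Pool.Agent.T5P
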