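import Pool.Agent.helper22.T5.PD
import Pool.Agent.helper35.T5.PKR
import Pool.Agent.helper75.T5.PK
import Pool.Agent.helper89.T5.PB
import Pool.Agent.helper14.T5.PO
import Pool.Agent.helper65.T5.P2
import Pool.Agent.helper29.T5.PL
import Pool.Agent.helper72.T5.PCR
import Pool.Agent.helper41.T5.PC
import Pool.Agent.helper72.T5.PIN
import Pool.Agent.helper94.T5.PZ

set_option autoImplicit false

/-!
# T5, block P: composition
-/

namespace Pool.Agent.T5P

/-- block P -/
theorem P_all : P_stmt :=
  ⟨PL, PC (PO PD (PK PD PKR) (PB PD) (PZ PD)) P2 PCR, PIN⟩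

end Pool.Agent.T5P
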