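import Pool.Agent.helper95.T5.Defs
import Pool.Agent.helper94.T5.SpecP
import Pool.Agent.helper94.T5.SpecV

set_option autoImplicit false

/-!
# T5 (MP_16912e_nt), block TAS: the weighted asymptotic

`EQC_stmt δ`, block P (local averages) and block V (volume) give `TAS_stmt δ`.
Only residue classes modulo `e = ∏_{p ≤ w} p²` are used.
-/

namespace Pool.Agent.T5T

open Finset Pool.Agent.T5

/-- the scaled point `(Z / Y, n / sN, k / sK, m / sM, g / sG)` -/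
noncomputable def sp (N Y Y₂ : ℝ) (t : Tpl) : ℝ × ℝ × ℝ × ℝ × ℝ :=
  ((t.2.2.2 : ℝ) / Y, (t.1.1 : ℝ) / sN N Y Y₂, (t.1.2 : ℝ) / sK N Y Y₂, (t.2.1 : ℝ) / sM N Y Y₂,
    (t.2.2.1 : ℝ) / sG N Y Y₂)

/-- lower corner of a box in the order of EQC -/
def aa (b : T5V.Bx) : Fin 5 → ℝ := ![b.lo 1, b.lo 2, b.lo 3, b.lo 4, b.lo 0]

/-- upper corner of a box in the order of EQC -/
def bb (b : T5V.Bx) : Fin 5 → ℝ := ![b.hi 1, b.hi 2, b.hi 3, b.hi 4, b.hi 0]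

/-- the class condition of `InCell` -/
def cls (e : ℕ) (n k m g R : ℤ) (t : Tpl) : Prop :=
  (e : ℤ) ∣ (t.1.1 : ℤ) - n ∧ (e : ℤ) ∣ (t.1.2 : ℤ) - k ∧ (e : ℤ) ∣ t.2.1 - m ∧
    (e : ℤ) ∣ t.2.2.1 - g ∧ (e1 e t.1.1 : ℤ) ∣ RR t - R

/-! ## Rows -/

/-- **TA1** (short-medium, algebra).  The divisions in `lam`, `RR`, `RR'`, `dis` are exact.
Proof.  `c1`: `n³ ∣ k² (Z k² + m g) - g² n²`, so `n² ∣ k² (Z k² + m g)`, coprime: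
`n² ∣ m g + Z k²`, `Λ n² = m g + Z k²` (`Int.ediv_mul_cancel`).  Then `n³ ∣ n² (Λ k² - g²)`, so
`n ∣ g² - Λ k²`.  `c2`: `k ∣ Z n² - m²`.  `n² (Z g - Λ m) = Z n² g - m (m g + Z k²)
= g (Z n² - m²) - m Z k²` is divisible by `k`, coprime: `k ∣ Z g - Λ m =: k tr`.
`k² (Z g + Λ m) = g Z k² + m Λ k² = g (Λ n² - m g) + m Λ k² = g Λ n² - m (g² - Λ k²)` is divisible by
`n`, so `n ∣ Z g + Λ m`; `k² (tr² - 4 Z² Λ) = (Z g - Λ m)² - 4 Z² Λ k² = (Z g + Λ m)² - 4 Z Λ (m g +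
Z k²) = (Z g + Λ m)² - 4 Z Λ² n²` is divisible by `n²`, so `n² ∣ tr² - 4 Z² Λ`, and the numerator in
`dis` is `k² (tr² - 4 Z² Λ)`. -/
def TA1_stmt : Prop := ∀ t : Tpl, IsT t →
  lam t * (t.1.1 : ℤ) ^ 2 = t.2.1 * t.2.2.1 + t.2.2.2 * (t.1.2 : ℤ) ^ 2 ∧
  (t.1.2 : ℤ) * RR t = t.2.2.2 * (t.1.1 : ℤ) ^ 2 - t.2.1 ^ 2 ∧
  (t.1.1 : ℤ) * RR' t = t.2.2.1 ^ 2 - lam t * (t.1.2 : ℤ) ^ 2 ∧
  dis t * ((t.1.1 : ℤ) * t.1.2) ^ 2 =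
    (t.2.2.2 * t.2.2.1 - lam t * t.2.1) ^ 2 - 4 * t.2.2.2 ^ 2 * lam t * (t.1.2 : ℤ) ^ 2 ∧
  ∃ tr : ℤ, (t.1.2 : ℤ) * tr = t.2.2.2 * t.2.2.1 - lam t * t.2.1 ∧
    dis t * (t.1.1 : ℤ) ^ 2 = tr ^ 2 - 4 * t.2.2.2 ^ 2 * lam t

/-- **TA2** (short; from PL and TA1).  The weight of a tuple is the weight of its class.
Proof.  For `p ∈ pr w`: `fp p t = fT p n k m g Z (lam t) (dis t)` by unfolding (`Pfund p D` is the
negation of `NF p D`; `(p : ℤ) ∣ (n : ℤ)` iff `p ∣ n`), then PL with TA1. -/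
def TA2_stmt : Prop := ∀ (w : ℕ) (t : Tpl), IsT t →
  fw w t = T5P.FF (pr w) t.1.1 t.1.2 t.2.1 t.2.2.1 (RR t)

/-- **TA3** (medium, algebra; from TA1).  The central set is given by the scaled point.
Proof.  `sM sG = Y sK² = Y² Y₂² / N`, `sN² = Y² Y₂ / N`, so `La (sp t) = lam t / Y₂`;
`Wd (sp t) = - dis t / N` (the terms `Z² Λ k²`, `(Z g)²`, `(Λ m)²` scale by `Y³ Y₂³/N`,
`(n k)²` by `Y³ Y₂³/N²`), `S1 (sp t) = n √(-dis)/(2 Z √Λ)` (`sN √N = Y √Y₂`),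
`S2 (sp t) = k √(-dis)/(2 √Z Λ)` (`sK √N = √Y Y₂`).  With `Z > 0`, `Λ > 0`, `-dis > 0` each
inequality of `Cen` is the one of `CenR`. -/
def TA3_stmt : Prop := ∀ κ N Y Y₂ : ℝ, 0 < κ → 0 < N → 0 < Y → 0 < Y₂ → ∀ t : Tpl,
  Cen κ N Y Y₂ t ↔ IsT t ∧ sp N Y Y₂ t ∈ T5V.CenR κ

/-- **TA4** (short).  `InCell` is: tuple, scaled point in the box, class condition. -/
def TA4_stmt : Prop := ∀ N Y Y₂ : ℝ, 0 < N → 0 < Y → 0 < Y₂ → ∀ (b : T5V.Bx) (e : ℕ)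
  (n k m g R : ℤ) (t : Tpl),
  InCell N Y Y₂ (aa b) (bb b) e ![n, k, m, g, R] t ↔
    IsT t ∧ sp N Y Y₂ t ∈ b.set ∧ cls e n k m g R t

/-- **TA5** (short-medium).  The modulus `e = ee S`, `S` a set of primes. -/
def TA5_stmt : Prop := ∀ S : Finset ℕ, (∀ p ∈ S, p.Prime) →
  1 ≤ T5P.ee S ∧ (T5P.ee S).primeFactors = S ∧
  (∀ n : ℕ, e1 (T5P.ee S) n ∣ T5P.ee S ∧ 1 ≤ e1 (T5P.ee S) n ∧
    ∀ p ∈ S, ¬ p ∣ n → p ^ 2 ∣ e1 (T5P.ee S) n) ∧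
  (∀ a b : ℕ, (T5P.ee S : ℤ) ∣ (a : ℤ) - b → e1 (T5P.ee S) a = e1 (T5P.ee S) b) ∧
  (∀ n k m g R : ℤ, T5P.FF S n k m g R ≠ 0 → ∀ p : ℕ, p.Prime → p ∣ T5P.ee S →
    ¬ ((p : ℤ) ∣ n ∧ (p : ℤ) ∣ k))

open Classical in
/-- **TA6** (medium; from TA2, TA5, PIN).  Decomposition into classes.
Proof.  Exchange the sums: for `t ∈ F` the inner sum over the `(n, k, m, g, R)` with `cls` has
exactly one `(n, k, m, g)`, the residues of `t` modulo `e` (`Finset.sum_eq_single`), and `R` runs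
through the `e / e₁` elements of `range e` congruent to `RR t` modulo `e₁ = e1 e t.1.1`
(`Nat.count`/`Int.emod`: `#{R < q e₁ : R ≡ r mod e₁} = q`); there `FF = FF(t)` by PIN (the roles: the
class is congruent to `t`), `e1 e n = e1 e t.1.1` by TA5, and the sum is `FF(t) (e₁/e)(e/e₁)`. -/
def TA6_stmt : Prop := ∀ (w : ℕ) (F : Finset Tpl), (∀ t ∈ F, IsT t) →
  ∑ t ∈ F, fw w t = ∑ n ∈ range (T5P.ee (pr w)), ∑ k ∈ range (T5P.ee (pr w)),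
    ∑ m ∈ range (T5P.ee (pr w)), ∑ g ∈ range (T5P.ee (pr w)), ∑ R ∈ range (T5P.ee (pr w)),
      T5P.FF (pr w) n k m g R * ((e1 (T5P.ee (pr w)) n : ℝ) / (T5P.ee (pr w) : ℝ)) *
        ((F.filter (fun t => cls (T5P.ee (pr w)) n k m g R t)).card : ℝ)

/-- **TA7** (medium; from PC, PIN, TA4, TA5, TA6).  The asymptotic in a box.
Proof.  `e = ee (pr w)`, finitely many classes `r = (n, k, m, g, R) ∈ (range e)⁵`.  If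
`FF r = 0` the term is zero.  Otherwise TA5 gives the hypothesis of EQC, and EQC with
`a = aa b`, `b = bb b`, `c = ![n, k, m, g, R]`, `ε' = ε/(e⁵ ∏ (p/(p-1))²)` gives `N₀(r)`; take `N₀`
the maximum of these and `1`.  The finset `F.filter (cls ..)` is the one of EQC by TA4.  Then by TA6
the sum is `∑_r FF(r) (e₁/e) (Y Y₂ (mu (6/π²)/(∏ (1 - p⁻²) e⁴ e₁)) + error)`, the main term is
`Y Y₂ mu (6/π²) / ∏ (1 - p⁻²) · e⁻⁵ ∑_r FF(r)`, by PC `= Y Y₂ mu (6/π²) ∏ (1 - p⁻²)`; errors: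
`|FF| ≤ ∏ (p/(p-1))²`, `e₁ ≤ e`. -/
def TA7_stmt : Prop := ∀ δ : ℝ, EQC_stmt δ → ∀ b : T5V.Bx, (∀ i, b.lo i < b.hi i) →
  0 < b.lo 0 → 0 < b.lo 1 → 0 < b.lo 2 → ∀ (w : ℕ) (ε : ℝ), 0 < ε → ∃ N₀ : ℝ, ∀ N Y : ℝ, N₀ ≤ N →
  N ^ (0.39 : ℝ) ≤ Y → Y ≤ N ^ (1 / 2 - δ) →
  ∀ F : Finset Tpl, (∀ t, t ∈ F ↔ IsT t ∧ sp N Y (N ^ (1 / 2 + δ / 100)) t ∈ b.set) →
    |∑ t ∈ F, fw w t - Y * N ^ (1 / 2 + δ / 100) * (b.mu * (6 / Real.pi ^ 2) *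
      ∏ p ∈ pr w, (1 - 1 / (p : ℝ) ^ 2))| ≤ ε * (Y * N ^ (1 / 2 + δ / 100))

/-- **TA8** (short).  Finitely many tuples in a box: all the coordinates are bounded integers. -/
def TA8_stmt : Prop := ∀ N Y Y₂ : ℝ, 0 < N → 0 < Y → 0 < Y₂ → ∀ b : T5V.Bx,
  Set.Finite {t : Tpl | sp N Y Y₂ t ∈ b.set}

/-! ## Composition -/

/-- **TA9** (medium; from V, VLM, TA3, TA7, TA8).  The block.
Proof.  `μ = Iv`, `C` from VLM (`1/100 < 1/2`).  Given `κ, w, ε`: `η = ε` times a small constant with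
`η (6/π²) ∏ (1 - p⁻²) ≤ ε/2` (`6/π² < 1`, the product is in `[0, 1]`: `η = ε/2`), boxes by `V_stmt`; TA7
for each box with `ε/(2 (r + 1))` and `N₀` the maximum of the finitely many `N₀` and `1` (then
`N, Y, Y₂ > 0`).  `F_i` the finset of the tuples with scaled point in box `i` (TA8).  `fw ≥ 0`
(`p/(p-1) ≥ 0`).  By TA3 `F ⊆ ⋃ F_i` and the `F_i`, `i ∈ I`, are disjoint subsets of `F`, so
`∑_{i ∈ I} ∑_{F_i} fw ≤ ∑_F fw ≤ ∑_i ∑_{F_i} fw`. -/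
def TA9_stmt : Prop := T5V.V_stmt → T5V.VLM_stmt → ∀ δ : ℝ, EQC_stmt δ → TAS_stmt δ

end Pool.Agent.T5T
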